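import Pool.Agent.X187.HB.Fin

/-!
# The velocity near the wall and near moving points

A regularity criterion, scale invariant, valid up to the boundary and without any assumption on the
boundary, for Leray-Hopf solutions of the Navier-Stokes equations in a bounded open set `Ω ⊆ ℝ³`. For
a convex set it says, in its simplest form: at a first singular time `τ` it cannot happen that

`|u(x, t)| ≤ κ ν / dist(x, ∂Ω)`, with a number `κ < 1/2`,

for almost every `x ∈ Ω` and almost every `t` in an interval `(t₁, τ)`; so the Reynolds number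
`|u| dist(x, ∂Ω) / ν` formed with the distance to the wall must exceed every number below `1/2`. In
an arbitrary bounded open set `dist(x, ∂Ω)⁻²` is replaced by `∑ⱼ dⱼ(x)⁻²`, where `dⱼ(x)` is the
distance of `x` to the complement of `Ω` along the `j`-th coordinate line, or by other averages of
the inverse squares of the distances along lines, and one may mix in `∫ |x - y|⁻² dP_t(y)` for
measures `P_t` depending arbitrarily on time, for instance moving points. One may add `a ν / (τ - t)`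
on the right hand side of the square of the bound, and one may subtract from `u` a smooth field `w`
with `ξ·Dw ξ ≥ -b |ξ|² / (τ - t)` (for instance all rigid motions), if `a` and `b` are below explicit
constants. All this is contained in the main statement, in which the size of `u - w` enters in the
sense of forms on divergence free test fields.

The main points are Hardy's inequality along lines in an arbitrary bounded open set, with the sharp
constant, and the form inequality
`-∫ v·S v ≤ (θ / (2 μ) + μ / 2) ν ∫ |∇v|² + (β / (2 μ) + b) ∫ |v|²` for the strain `S` of `u`, which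
is combined with the instability result `EnergyStability` of the library.
-/

set_option autoImplicit false

open MeasureTheory Set
open scoped InnerProductSpace ENNReal ContDiff

namespace Pool.Agent.Results.MP_fd8964_an.HardyBarrier

open H772R2.NS.Pub Pool.Agent.W795.TQ Pool.Agent.X187.HB

/-- Let `Ω` be a bounded open set.

(A) Let `u` be a Leray-Hopf solution on `[0,T]` with admissible data. Then either `u` is a strong
solution on `[0,T]`, or there is a first singular time `τ ∈ (0,T]` with the following properties,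
whenever `θ ≥ 0`, `μ > 0` and `θ + μ² < 2 μ` (such a `μ` exists if and only if `θ < 1`).
(1) For `0 ≤ s < τ` there is a number `M` such that, whenever `b, β ≥ 0` are locally integrable on
`[s,τ)` and `u t` is for almost every `t ∈ (s,τ)` the sum of a smooth field `w` with
`ξ·Dw ξ ≥ -b(t) |ξ|²` in `Ω` and of a field `z` with
`∫ |z|² |φ|² ≤ θ ν² ∫ |∇φ|² + ν β(t) ∫ |φ|²` for all divergence free test fields `φ`, one has
`∫_s^t (β + 2 μ b) ≥ (3/2) μ log (1/(τ - t)) - M` for `t < τ` arbitrarily close to `τ`.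
(2) If `a, b ≥ 0` and `a + 2 μ b < (3/2) μ`, it is impossible that this holds with `b / (τ - t)` and
`a / (τ - t)` for almost every `t` in an interval `(t₁,τ)`.

(B) The condition on `z` holds with `θ = 4 κ²` if `|z|² ≤ κ² ν² h + ν β` almost everywhere in `Ω`,
where `h` is a weight in Hardy's inequality.

(C) Such weights are `h(x) = ∫ |x - y|⁻² dP(y) + ∫ d_e(x)⁻² dQ(e)`, where `d_e(x)` is the distance to
the complement of `Ω` along the line in the direction `e` (in units of `|e|`), if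
`P(ℝ³) |w|² + ∫ (e·w)² dQ(e) ≤ |w|²` for all vectors `w`.

(D) If `Ω` is convex, `h(x) = dist(x, Ωᶜ)⁻²` is such a weight. -/
theorem result :
    ∀ (Ω : Set R3), IsOpen Ω → Bornology.IsBounded Ω →
    (∀ (ν T : ℝ), 0 < ν → 0 < T →
      ∀ (F F' : ℝ → L2 Ω Mat), IsH1 T F F' →
      ∀ (u : ℝ → L2 Ω R3) (G : ℝ → L2 Ω Mat), IsLerayHopf Ω ν T F u G →
      ∀ z0 : L2 Ω Mat, (u 0, z0) ∈ H1graph Ω →
      (∃ g : L2 Ω R3, ∀ φ, IsTest Ω φ → rhs ν (u 0) z0 (F 0) φ = ∫ x in Ω, ⟪g.fn x, φ x⟫_ℝ) →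
      (∃ u' G1 G', IsStrong Ω ν T F u u' G1 G') ∨
      ∃ τ ∈ Ioc 0 T, (∀ t ∈ Ioo 0 τ, ∃ u' G1 G', IsStrong Ω ν t F u u' G1 G') ∧
        ∀ θ μ : ℝ, 0 ≤ θ → 0 < μ → θ + μ ^ 2 < 2 * μ →
          (∀ s ∈ Ico 0 τ, ∃ M : ℝ, ∀ b β : ℝ → ℝ,
            (∀ t, 0 ≤ b t) → (∀ t, 0 ≤ β t) →
            (∀ t ∈ Ioo s τ, IntervalIntegrable b volume s t) →
            (∀ t ∈ Ioo s τ, IntervalIntegrable β volume s t) →
            (∀ᵐ t ∂(volume.restrict (Ioo s τ)), Split θ ν (b t) (β t) (u t)) →
            ∀ t0 < τ, ∃ t ∈ Ioo t0 τ, s < t ∧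
              3 / 2 * μ * Real.log (1 / (τ - t)) - M ≤ ∫ r in s..t, (β r + 2 * μ * b r)) ∧
          ∀ a b t1 : ℝ, 0 ≤ a → 0 ≤ b → a + 2 * μ * b < 3 / 2 * μ → t1 < τ →
            ¬ ∀ᵐ t ∂(volume.restrict (Ioo t1 τ)), Split θ ν (b / (τ - t)) (a / (τ - t)) (u t)) ∧
    (∀ h : R3 → ℝ≥0∞, Hardy Ω h → ∀ (κ ν β : ℝ) (z : R3 → R3),
      (∀ᵐ x ∂(volume.restrict Ω), ENNReal.ofReal (‖z x‖ ^ 2)
        ≤ ENNReal.ofReal (κ ^ 2 * ν ^ 2) * h x + ENNReal.ofReal (ν * β)) →
      Small Ω (4 * κ ^ 2) ν β z) ∧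
    (∀ P Q : Measure R3, IsFiniteMeasure P → IsFiniteMeasure Q →
      (∀ w : R3, P univ * ENNReal.ofReal (‖w‖ ^ 2)
        + ∫⁻ e, ENNReal.ofReal (⟪e, w⟫_ℝ ^ 2) ∂Q ≤ ENNReal.ofReal (‖w‖ ^ 2)) →
      Hardy Ω (wallPot Ω P Q)) ∧
    (Convex ℝ Ω → Hardy Ω fun x => (Metric.infEDist x Ωᶜ)⁻¹ ^ 2) := by
  intro Ω hΩ hb
  refine ⟨?_, fun h hh κ ν β z hz => weight_pub hh hz,
    fun P Q hP hQ hPQ => wallPot_pub hΩ hb P Q hP hQ hPQ, fun hcv => convex_pub hΩ hb hcv⟩
  intro ν T hν hT F F' hF u G L z0 h0 hg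
  rcases main Ω hΩ hb ν T hν hT F F' hF u G L z0 h0 hg with h1 | ⟨τ, hτ, h1, h2⟩
  · exact Or.inl h1
  · refine Or.inr ⟨τ, hτ, h1, fun θ μ hθ hμ hθμ => ⟨h2 θ μ hθ hμ hθμ, ?_⟩⟩
    intro a b t1 ha hb ha' ht1 hyp
    exact explicit hτ.1 hμ (h2 θ μ hθ hμ hθμ) ha hb ha' ht1 hyp

end Pool.Agent.Results.MP_fd8964_an.HardyBarrier
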