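import Pool.Agent.X187.NSC.PubData
import Pool.Agent.X187.NSC.Min

/-!
Minimal blow-up data for the Navier-Stokes equations in a bounded domain with zero boundary values.
-/

set_option autoImplicit false

open MeasureTheory Set Filter Topology
open scoped InnerProductSpace ENNReal ContDiff

namespace Pool.Agent.Results.MP_fd8964_an.MinimalBlowupData

open H772R2.NS.Pub Pool.Agent.X187.NSD

/-- In each bounded open set `Ω`, either all admissible data have a strong solution on `[0,T]`, or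
there is `ρ > 0` such that all admissible data of size less than `ρ` have a strong solution,
there are data of size `ρ` without one, and these are compact: each sequence of admissible data
without strong solutions on `[0,T]` the sizes of which tend to `ρ` has a subsequence which converges
(in norm) to admissible data of size `ρ` without a strong solution on `[0,T]`. -/
theorem result : ∀ (Ω : Set R3), IsOpen Ω → Bornology.IsBounded Ω → ∀ (ν T : ℝ), 0 < ν → 0 < T →
    (∀ d : Data Ω, d.Admissible ν T → d.Regular ν T) ∨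
    ∃ ρ : ℝ, 0 < ρ ∧ (∀ d : Data Ω, d.Admissible ν T → d.size T < ρ → d.Regular ν T) ∧
      (∃ e : Data Ω, e.Admissible ν T ∧ ¬ e.Regular ν T ∧ e.size T = ρ) ∧
      ∀ d : ℕ → Data Ω, (∀ n, (d n).Admissible ν T) → (∀ n, ¬ (d n).Regular ν T) →
        Tendsto (fun n => (d n).size T) atTop (𝓝 ρ) →
        ∃ (e : Data Ω) (φ : ℕ → ℕ), StrictMono φ ∧ e.Admissible ν T ∧ ¬ e.Regular ν T ∧
          e.size T = ρ ∧ Tendsto (fun n => (d (φ n)).dist2 T e) atTop (𝓝 0) := by
  intro Ω hΩ hb ν T hν hT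
  by_cases hall : ∀ d : Data Ω, d.Admissible ν T → d.Regular ν T
  · exact Or.inl hall
  have hbad : ∃ d : Data Ω, d.Admissible ν T ∧ ¬ d.Regular ν T := by
    push Not at hall
    exact hall
  obtain ⟨c, hc, hU⟩ := Pool.Agent.W52.TQ.proof_univ
  obtain ⟨C, Fr⟩ := H772R2.NSR.exists_frame hΩ hb
  have hcomp := H772R2.NSR.rellich_W hΩ hb
  have hA := fun d : Data Ω => Pool.Agent.X187.NSC.adm_iff (ν := ν) (T := T) hΩ d
  have hG := fun (d : Data Ω) (hd : d.Admissible ν T) =>
    Pool.Agent.X187.NSC.good_iff hΩ Fr hT d ((hA d).mpr hd)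
  have hbad' : ∃ d, Pool.Agent.X187.NSC.Adm (H772R2.NS.graphW Ω) H772R2.NS.tensL ν T d ∧
      ¬ Pool.Agent.X187.NSC.Good (H772R2.NS.graphW Ω) H772R2.NS.tensL ν T d := by
    obtain ⟨d, h1, h2⟩ := hbad
    exact ⟨_, (hA d).mpr h1, fun h => h2 ((hG d h1).mp h)⟩
  set ρ : ℝ := Pool.Agent.X187.NSC.rho (H772R2.NS.graphW Ω) H772R2.NS.tensL ν T with hρ
  refine Or.inr ⟨ρ, Pool.Agent.X187.NSC.rho_pos Fr (hU _ hΩ) hν hT hcomp hbad', ?_, ?_, ?_⟩
  · intro d h1 h2
    by_contra hcon
    have h3 := Pool.Agent.X187.NSC.rho_le hT ((hA d).mpr h1) (fun h => hcon ((hG d h1).mp h))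
    exact absurd h2 (not_lt.2 h3)
  · obtain ⟨e, k1, k2, k3⟩ := Pool.Agent.X187.NSC.min_bad Fr (hU _ hΩ) hν hT hcomp hbad'
    have k1' := (hA (Pool.Agent.X187.NSC.ofDat e)).mp k1
    exact ⟨Pool.Agent.X187.NSC.ofDat e, k1', fun h => k2 ((hG _ k1').mpr h), k3⟩
  · intro d h1 h2 h3
    obtain ⟨e, φ, k0, k1, k2, k3, k4, -⟩ := Pool.Agent.X187.NSC.min_seq Fr (hU _ hΩ) hν hT hcomp
      (d := fun n => Pool.Agent.X187.NSC.toDat (d n)) (fun n => (hA (d n)).mpr (h1 n))
      (fun n h => h2 n ((hG _ (h1 n)).mp h)) h3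
    have k1' := (hA (Pool.Agent.X187.NSC.ofDat e)).mp k1
    exact ⟨Pool.Agent.X187.NSC.ofDat e, φ, k0, k1', fun h => k2 ((hG _ k1').mpr h), k3, k4⟩

end Pool.Agent.Results.MP_fd8964_an.MinimalBlowupData
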