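import Pool.Agent.X187.NSC.Bridge
import Pool.Agent.W52.TQ.Univ

/-!
Regularity for all data is equivalent to an a priori bound in terms of the energy, for the
Navier-Stokes equations in a bounded domain with zero boundary values.
-/

set_option autoImplicit false

open MeasureTheory Set
open scoped InnerProductSpace ENNReal ContDiff

namespace Pool.Agent.Results.MP_fd8964_an.QuantitativeRegularity

open H772R2.NS.Pub Pool.Agent.W795.TQ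
open Pool.Agent.W795.HE (StrongEnergy)

/-- Admissible data on `[0,T]`: the initial velocity `u₀` is in `V = H¹_{0,σ}(Ω)`, the force
`⟨f(t), φ⟩ = (F(t), ∇φ)` is in `H¹(0,T; V')`, that is, `F ∈ H¹(0,T; L²)` with the derivative `F'`,
and the initial acceleration `νΔu₀ - (u₀·∇)u₀ + f(0)` is in `L²` up to a gradient. -/
def Admissible (Ω : Set R3) (ν T : ℝ) (u₀ : L2 Ω R3) (F F' : ℝ → L2 Ω Mat) : Prop :=
  IsH1 T F F' ∧ ∃ (G₀ : L2 Ω Mat) (g : L2 Ω R3), (u₀, G₀) ∈ H1graph Ω ∧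
    ∀ φ, IsTest Ω φ → rhs ν u₀ G₀ (F 0) φ = ∫ x in Ω, ⟪g.fn x, φ x⟫_ℝ

/-- The data of `u` are bounded by `R` at the level of the energy: `‖u(0)‖ ≤ R` in `L²`,
`‖F(0)‖ ≤ R` and `∫₀^τ ‖F'‖² ≤ R`. -/
def EnergyBound {Ω : Set R3} (R τ : ℝ) (F F' : ℝ → L2 Ω Mat) (u : ℝ → L2 Ω R3) : Prop :=
  IsH1 τ F F' ∧ ‖u 0‖ ≤ R ∧ ‖F 0‖ ≤ R ∧ ∫ t in (0 : ℝ)..τ, ‖F' t‖ ^ 2 ≤ R

/-- For each bounded open set `Ω`, each viscosity `ν` and each `T`, the following are equivalent: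
* for all admissible data there is a strong solution on `[0,T]`;
* for all `R` and `ε > 0` there is `M` such that each strong solution on an interval `[0,τ]`,
  `τ ≤ T`, with the data bounded by `R` at the level of the energy, satisfies `‖∇u(t)‖ ≤ M` and
  `‖∂ₜu(t)‖ ≤ M` for (almost) all `t ∈ [ε,τ]` and `∫_ε^τ ‖∇∂ₜu‖² ≤ M`;
* for all `R` and `ε > 0` there is `M` such that each Leray-Hopf solution with the strong energy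
  inequality on an interval `[0,τ]`, `τ ≤ T`, with the data bounded by `R` at the level of the
  energy, satisfies `‖∇u(t)‖ ≤ M` for almost all `t ∈ [ε,τ]`. -/
theorem result : ∀ (Ω : Set R3), IsOpen Ω → Bornology.IsBounded Ω → ∀ (ν T : ℝ), 0 < ν → 0 < T →
    List.TFAE [
      ∀ (u₀ : L2 Ω R3) (F F' : ℝ → L2 Ω Mat), Admissible Ω ν T u₀ F F' →
        ∃ u u' G G', IsStrong Ω ν T F u u' G G' ∧ u 0 = u₀,
      ∀ R ε : ℝ, 0 < ε → ∃ M : ℝ, ∀ τ : ℝ, 0 < τ → τ ≤ T → ∀ (F F' : ℝ → L2 Ω Mat)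
        (u u' : ℝ → L2 Ω R3) (G G' : ℝ → L2 Ω Mat), IsStrong Ω ν τ F u u' G G' →
        EnergyBound R τ F F' u →
        (∀ t ∈ Icc ε τ, ‖G t‖ ≤ M) ∧ (∀ᵐ t ∂(volume.restrict (Ioc ε τ)), ‖u' t‖ ≤ M) ∧
          ∫ t in ε..τ, ‖G' t‖ ^ 2 ≤ M,
      ∀ R ε : ℝ, 0 < ε → ∃ M : ℝ, ∀ τ : ℝ, 0 < τ → τ ≤ T → ∀ (F F' : ℝ → L2 Ω Mat)
        (u : ℝ → L2 Ω R3) (G : ℝ → L2 Ω Mat), IsLerayHopf Ω ν τ F u G →
        StrongEnergy ν τ F u G → EnergyBound R τ F F' u →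
        ∀ᵐ t ∂(volume.restrict (Ioc ε τ)), ‖G t‖ ≤ M] := by
  intro Ω hΩ hb ν T hν hT
  obtain ⟨c, hc, hU⟩ := Pool.Agent.W52.TQ.proof_univ
  obtain ⟨C, Fr⟩ := H772R2.NSR.exists_frame hΩ hb
  have key := Pool.Agent.X187.NSC.equiv_abs Fr (hU _ hΩ) hν hT (H772R2.NSR.rellich_W hΩ hb)
  have e1 : (∀ d : Pool.Agent.X187.NSC.Dat (H772R2.NS.L2V Ω) (H772R2.NS.L2M Ω),
      Pool.Agent.X187.NSC.Adm (H772R2.NS.graphW Ω) H772R2.NS.tensL ν T d →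
      Pool.Agent.X187.NSC.Good (H772R2.NS.graphW Ω) H772R2.NS.tensL ν T d) ↔
      ∀ (u₀ : L2 Ω R3) (F F' : ℝ → L2 Ω Mat), Admissible Ω ν T u₀ F F' →
        ∃ u u' G G', IsStrong Ω ν T F u u' G G' ∧ u 0 = u₀ := by
    constructor
    · rintro h u₀ F F' ⟨hF, G₀, g, h1, h2⟩
      obtain ⟨u, u1, z, z1, S, h0⟩ := h ⟨u₀, G₀, F, F', g⟩ ⟨H772R2.NS.Pub.mem_pub.mpr h1,
        ⟨hF.memLp, hF.prim⟩, (Pool.Agent.X187.NSC.comp_iff hΩ (H772R2.NS.Pub.mem_pub.mpr h1)).mp h2⟩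
      exact ⟨u, u1, z, z1, strong_of_str hΩ hT S fun _ _ => rfl, h0⟩
    · rintro h ⟨x, y, F, F', g⟩ ⟨h1, h2, h3⟩
      obtain ⟨u, u', G, G', S, h0⟩ := h x F F' ⟨⟨h2.memLp, h2.prim⟩, y, g,
        H772R2.NS.Pub.mem_pub.mp h1, (Pool.Agent.X187.NSC.comp_iff hΩ h1).mpr h3⟩
      exact ⟨u, u', G, G', Pool.Agent.X187.NSC.str_of_strong hΩ Fr hT h2 S, h0⟩
  have e2 : Pool.Agent.X187.NSC.APs (H772R2.NS.graphW Ω) H772R2.NS.tensL ν T ↔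
      ∀ R ε : ℝ, 0 < ε → ∃ M : ℝ, ∀ τ : ℝ, 0 < τ → τ ≤ T → ∀ (F F' : ℝ → L2 Ω Mat)
        (u u' : ℝ → L2 Ω R3) (G G' : ℝ → L2 Ω Mat), IsStrong Ω ν τ F u u' G G' →
        EnergyBound R τ F F' u →
        (∀ t ∈ Icc ε τ, ‖G t‖ ≤ M) ∧ (∀ᵐ t ∂(volume.restrict (Ioc ε τ)), ‖u' t‖ ≤ M) ∧
          ∫ t in ε..τ, ‖G' t‖ ^ 2 ≤ M := by
    constructor
    · intro h R ε hε
      obtain ⟨M, hM⟩ := h R ε hε
      refine ⟨M, fun τ hτ hτT F F' u u' G G' S hE => ?_⟩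
      exact hM τ hτ hτT F F' u u' G G' ⟨hE.1.memLp, hE.1.prim⟩
        (Pool.Agent.X187.NSC.str_of_strong hΩ Fr hτ ⟨hE.1.memLp, hE.1.prim⟩ S) hE.2.1 hE.2.2.1
        hE.2.2.2
    · intro h R ε hε
      obtain ⟨M, hM⟩ := h R ε hε
      refine ⟨M, fun τ hτ hτT F F' u u' G G' hF S h1 h2 h3 => ?_⟩
      exact hM τ hτ hτT F F' u u' G G' (strong_of_str hΩ hτ S fun _ _ => rfl)
        ⟨⟨hF.memLp, hF.prim⟩, h1, h2, h3⟩
  have e3 : Pool.Agent.X187.NSC.APl (H772R2.NS.graphW Ω) H772R2.NS.tensL ν T ↔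
      ∀ R ε : ℝ, 0 < ε → ∃ M : ℝ, ∀ τ : ℝ, 0 < τ → τ ≤ T → ∀ (F F' : ℝ → L2 Ω Mat)
        (u : ℝ → L2 Ω R3) (G : ℝ → L2 Ω Mat), IsLerayHopf Ω ν τ F u G →
        StrongEnergy ν τ F u G → EnergyBound R τ F F' u →
        ∀ᵐ t ∂(volume.restrict (Ioc ε τ)), ‖G t‖ ≤ M := by
    constructor
    · intro h R ε hε
      obtain ⟨M, hM⟩ := h R ε hε
      refine ⟨M, fun τ hτ hτT F F' u G L hSE hE => ?_⟩
      obtain ⟨_, -, hLH⟩ := Pool.Agent.W795.HE.pub_lh hΩ hb hE.1.memLp hE.1.prim L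
      exact hM τ hτ hτT F F' u G ⟨hE.1.memLp, hE.1.prim⟩ hLH hSE hE.2.1 hE.2.2.1 hE.2.2.2
    · intro h R ε hε
      obtain ⟨M, hM⟩ := h R ε hε
      refine ⟨M, fun τ hτ hτT F F' u G hF L hSE h1 h2 h3 => ?_⟩
      exact hM τ hτ hτT F F' u G (Pool.Agent.X187.NSC.lerayHopf_of_lh hΩ L) hSE
        ⟨⟨hF.memLp, hF.prim⟩, h1, h2, h3⟩
  rw [← e1, ← e2, ← e3]
  exact key

end Pool.Agent.Results.MP_fd8964_an.QuantitativeRegularity
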