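import Pool.Agent.X187.NSC.PubData
import Pool.Agent.X187.NSC.Min

/-!
The data with a strong solution on `[0,T]` are open with respect to the weak convergence, for the
Navier-Stokes equations in a bounded domain with zero boundary values.
-/

set_option autoImplicit false

open MeasureTheory Set Filter Topology
open scoped InnerProductSpace ENNReal ContDiff

namespace Pool.Agent.Results.MP_fd8964_an.WeakStability

open H772R2.NS.Pub Pool.Agent.X187.NSD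

/-- Let `v` be a strong solution on `[0,T]` with the data `e` in a bounded open set `Ω`. For each
`R` there is `N` such that for all sequences `d n` of admissible data which satisfy `‖∇u₀‖ ≤ R`,
`‖F(0)‖ ≤ R`, `∫₀ᵀ ‖F'‖² ≤ R` and which converge weakly to the data `e` (the initial velocities
weakly in `L²`, the forces weakly in `L²(Ω)` for each `t ∈ [0,T]`), and for each `η > 0`, for all
large `n` there is a strong solution `u` on `[0,T]` with the data `d n`, `‖∇u(t)‖ ≤ N` and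
`‖u(t) - v(t)‖ ≤ η` for all `t ∈ [0,T]`. No bound of the initial accelerations is assumed. -/
theorem result : ∀ (Ω : Set R3), IsOpen Ω → Bornology.IsBounded Ω → ∀ (ν T : ℝ), 0 < ν → 0 < T →
    ∀ (e : Data Ω), e.Admissible ν T → ∀ (v v' : ℝ → L2 Ω R3) (Y Y' : ℝ → L2 Ω Mat),
    IsStrong Ω ν T e.F v v' Y Y' → v 0 = e.u₀ → ∀ R : ℝ, ∃ N : ℝ, ∀ d : ℕ → Data Ω,
      (∀ n, (d n).Admissible ν T) → (∀ n, ‖(d n).G₀‖ ≤ R) → (∀ n, ‖(d n).F 0‖ ≤ R) →
      (∀ n, ∫ t in (0 : ℝ)..T, ‖(d n).F' t‖ ^ 2 ≤ R) →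
      (∀ k : L2 Ω R3, Tendsto (fun n => ⟪(d n).u₀, k⟫_ℝ) atTop (𝓝 ⟪e.u₀, k⟫_ℝ)) →
      (∀ t ∈ Icc 0 T, ∀ k : L2 Ω Mat,
        Tendsto (fun n => ⟪(d n).F t, k⟫_ℝ) atTop (𝓝 ⟪e.F t, k⟫_ℝ)) →
      ∀ η : ℝ, 0 < η → ∀ᶠ n in atTop, ∃ u u' G G', IsStrong Ω ν T (d n).F u u' G G' ∧
        u 0 = (d n).u₀ ∧ ∀ t ∈ Icc 0 T, ‖G t‖ ≤ N ∧ ‖u t - v t‖ ≤ η := by
  intro Ω hΩ hb ν T hν hT e he v v' Y Y' hv hv0 R
  obtain ⟨c, hc, hU⟩ := Pool.Agent.W52.TQ.proof_univ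
  obtain ⟨C, Fr⟩ := H772R2.NSR.exists_frame hΩ hb
  have heA := (Pool.Agent.X187.NSC.adm_iff hΩ e).mpr he
  have Sv := Pool.Agent.X187.NSC.str_of_strong hΩ Fr hT heA.force hv
  obtain ⟨N, hN, h⟩ := Pool.Agent.X187.NSC.open_seq Fr (hU _ hΩ) hν hT
    (H772R2.NSR.rellich_W hΩ hb) (le_max_right R 0) heA.force Sv hv0
  refine ⟨N, ?_⟩
  intro d hd h1 h2 h3 h4 h5 η hη
  have hdA := fun n => (Pool.Agent.X187.NSC.adm_iff hΩ (d n)).mpr (hd n)
  filter_upwards [h (fun n => Pool.Agent.X187.NSC.toDat (d n)) hdA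
    (fun n => (h1 n).trans (le_max_left _ _)) (fun n => (h2 n).trans (le_max_left _ _))
    (fun n => (h3 n).trans (le_max_left _ _)) h4 h5 η hη] with n hn
  obtain ⟨u, u1, z, z1, k1, k2, k3, k4⟩ := hn
  exact ⟨u, u1, z, z1, Pool.Agent.W795.TQ.strong_of_str hΩ hT k1 fun _ _ => rfl, k2,
    fun t ht => ⟨k3 t ht, k4 t ht⟩⟩

end Pool.Agent.Results.MP_fd8964_an.WeakStability
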